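import Mathlib

namespace Pool.Agent.Results.MP_9946dc_co.KneserClassZero

open Finset

/-- The Kneser graph `K(m,t)`: its vertices are the `t`-element subsets of an `m`-element set,
two (distinct) vertices being adjacent exactly when they are disjoint. -/
def kneser (m t : ℕ) : SimpleGraph {s : Finset (Fin m) // s.card = t} where
  Adj a b := a ≠ b ∧ Disjoint a.1 b.1
  symm := ⟨fun _ _ h => ⟨h.1.symm, h.2.symm⟩⟩
  loopless := ⟨fun _ h => h.1 rfl⟩

/-- `Move G C C'`: the distribution `C'` arises from `C` by one pebbling move, which takes two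
pebbles off a vertex `u` and puts one pebble on a vertex `v` adjacent to `u`. -/
def Move {V : Type*} [DecidableEq V] (G : SimpleGraph V) (C C' : V → ℕ) : Prop :=
  ∃ u v, G.Adj u v ∧ 2 ≤ C u ∧
    C' = Function.update (Function.update C u (C u - 2)) v (C v + 1)

/-- Some (possibly empty) sequence of pebbling moves starting from `C` puts a pebble on `r`. -/
def Reaches {V : Type*} [DecidableEq V] (G : SimpleGraph V) (r : V) (C : V → ℕ) : Prop :=
  ∃ C' : V → ℕ, Relation.ReflTransGen (Move G) C C' ∧ 1 ≤ C' r

/-- `π(G, r)`: the least `k` such that every distribution of size `k` reaches `r`. -/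
noncomputable def rootedPebblingNumber {V : Type*} [Fintype V] [DecidableEq V]
    (G : SimpleGraph V) (r : V) : ℕ :=
  sInf {k : ℕ | ∀ C : V → ℕ, ∑ v, C v = k → Reaches G r C}

/-- The pebbling number `π(G) = max_r π(G, r)`. -/
noncomputable def pebblingNumber {V : Type*} [Fintype V] [DecidableEq V]
    (G : SimpleGraph V) : ℕ :=
  Finset.univ.sup (fun r => rootedPebblingNumber G r)

/-- `G` is of Class 0: its pebbling number equals its number of vertices. -/
def IsClassZero {V : Type*} [Fintype V] [DecidableEq V] (G : SimpleGraph V) : Prop :=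
  pebblingNumber G = Fintype.card V

section general

variable {V : Type*} [Fintype V] [DecidableEq V] {G : SimpleGraph V}

theorem sum_move {C : V → ℕ} {u v : V} (huv : u ≠ v) (h2 : 2 ≤ C u) (w : V → ℚ) :
    ∑ x, w x * ((Function.update (Function.update C u (C u - 2)) v (C v + 1) x : ℕ) : ℚ)
      = ∑ x, w x * (C x : ℚ) - 2 * w u + w v := by
  have key : ∀ x, w x * ((Function.update (Function.update C u (C u - 2)) v (C v + 1) x : ℕ) : ℚ)
      = w x * (C x : ℚ) - (if x = u then 2 * w u else 0) + (if x = v then w v else 0) := by
    intro x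
    by_cases hxv : x = v
    · subst hxv
      simp only [Function.update_self, if_true, if_neg (Ne.symm huv)]
      push_cast
      ring
    · by_cases hxu : x = u
      · subst hxu
        simp only [Function.update_of_ne hxv, Function.update_self, if_true, if_neg hxv]
        rw [Nat.cast_sub h2]
        push_cast
        ring
      · simp [hxu, hxv]
  rw [Finset.sum_congr rfl (fun x _ => key x)]
  rw [Finset.sum_add_distrib, Finset.sum_sub_distrib]
  simp

/-- The weight function lemma. -/
theorem weight_lemma (r : V) (w : V → ℚ) (hw0 : ∀ v, 0 ≤ w v)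
    (hw : ∀ v, 0 < w v → G.Adj v r ∨ ∃ u, G.Adj v u ∧ 2 * w v ≤ w u) :
    ∀ (N : ℕ) (C : V → ℕ), ∑ v, C v = N → ¬ Reaches G r C →
      ∑ v, w v * (C v : ℚ) ≤ ∑ v, w v := by
  intro N
  induction N using Nat.strong_induction_on with
  | _ N ih =>
    intro C hC hun
    by_cases hall : ∀ v, 0 < w v → C v ≤ 1
    · apply Finset.sum_le_sum
      intro v _
      rcases (hw0 v).eq_or_lt with h | h
      · simp [← h]
      · have h1 : (C v : ℚ) ≤ 1 := by exact_mod_cast hall v h
        nlinarith
    · push Not at hall
      obtain ⟨v, hv, hCv⟩ := hall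
      have h2 : 2 ≤ C v := hCv
      rcases hw v hv with hadj | ⟨u, hadj, hu⟩
      · exfalso
        apply hun
        refine ⟨_, Relation.ReflTransGen.single ⟨v, r, hadj, h2, rfl⟩, ?_⟩
        simp
      · have hne : v ≠ u := hadj.ne
        set C' := Function.update (Function.update C v (C v - 2)) u (C u + 1) with hC'
        have hmove : Move G C C' := ⟨v, u, hadj, h2, rfl⟩
        have hun' : ¬ Reaches G r C' := by
          rintro ⟨D, hD, hD1⟩
          exact hun ⟨D, Relation.ReflTransGen.head hmove hD, hD1⟩
        have hs := sum_move (C := C) hne h2 (fun _ => 1)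
        have hs' : (∑ x, (C' x : ℚ)) = ∑ x, (C x : ℚ) - 1 := by
          have := hs
          simp only [one_mul, mul_one] at this
          rw [hC', this]; ring
        have hsN : (∑ x, C' x) + 1 = N := by
          have : ((∑ x, C' x : ℕ) : ℚ) + 1 = N := by
            push_cast
            rw [hs', ← hC]
            push_cast
            ring
          exact_mod_cast this
        have hlt : ∑ x, C' x < N := by omega
        have h3 := ih _ hlt C' rfl hun'
        have h4 := sum_move (C := C) hne h2 w
        rw [← hC'] at h4
        linarith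

theorem classZero_of_forall (hle : ∀ (r : V) (C : V → ℕ), ¬ Reaches G r C →
    ∑ v, C v < Fintype.card V) : IsClassZero G := by
  have key : ∀ r, rootedPebblingNumber G r = Fintype.card V := by
    intro r
    unfold rootedPebblingNumber
    apply le_antisymm
    · apply Nat.sInf_le
      intro C hC
      by_contra hun
      exact absurd (hle r C hun) (by omega)
    · have hne : {k : ℕ | ∀ C : V → ℕ, ∑ v, C v = k → Reaches G r C}.Nonempty := by
        refine ⟨Fintype.card V, ?_⟩
        intro C hC
        by_contra hun
        exact absurd (hle r C hun) (by omega)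
      apply le_csInf hne
      intro k hk
      by_contra hlt
      push Not at hlt
      have hcard : k ≤ (Finset.univ.erase r).card := by
        rw [Finset.card_erase_of_mem (Finset.mem_univ r), Finset.card_univ]
        omega
      obtain ⟨S, hS, hSk⟩ := Finset.exists_subset_card_eq hcard
      have hrS : r ∉ S := fun h => by
        have := hS h
        simp at this
      have hsum : ∑ v, (if v ∈ S then 1 else 0 : ℕ) = k := by
        simp [hSk]
      obtain ⟨C', hC', h1⟩ := hk _ hsum
      have hstay : C' = fun v => if v ∈ S then 1 else 0 := by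
        rcases Relation.ReflTransGen.cases_head hC' with h | ⟨D, ⟨u, v, _, h2, _⟩, _⟩
        · exact h.symm
        · exfalso
          by_cases hu : u ∈ S <;> simp [hu] at h2
      rw [hstay] at h1
      simp [hrS] at h1
  unfold IsClassZero pebblingNumber
  simp only [key]
  rcases isEmpty_or_nonempty V with h | h
  · simp
  · rw [Finset.sup_const Finset.univ_nonempty]

end general


section average

variable {O : Type*} [Fintype O] [DecidableEq O]

/-- Permutations act transitively on the subsets of a given size. -/
theorem exists_perm_map {X Y : Finset O} (h : X.card = Y.card) :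
    ∃ σ : Equiv.Perm O, X.map σ.toEmbedding = Y := by
  classical
  let e : {x // x ∈ X} ≃ {x // x ∈ Y} := Finset.equivOfCardEq h
  refine ⟨e.extendSubtype, ?_⟩
  apply Finset.eq_of_subset_of_card_le
  · intro y hy
    simp only [Finset.mem_map_equiv] at hy
    have := e.extendSubtype_mem _ hy
    simpa using this
  · simp [h]

theorem average (f : Finset O → ℚ) (j : ℕ)
    (hf : ∑ X ∈ Finset.powersetCard j (Finset.univ : Finset O), f X
      = ((Fintype.card O).choose j : ℚ)) (X : Finset O) (hX : X.card = j) :
    ∑ σ : Equiv.Perm O, f (X.map σ.toEmbedding) = (Fintype.card (Equiv.Perm O) : ℚ) := by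
  classical
  set g : Finset O → ℚ := fun X => ∑ σ : Equiv.Perm O, f (X.map σ.toEmbedding) with hg
  have hinv : ∀ (X : Finset O) (τ : Equiv.Perm O), g (X.map τ.toEmbedding) = g X := by
    intro X τ
    simp only [hg]
    apply Fintype.sum_equiv (Equiv.mulRight τ)
    intro σ
    congr 1
    rw [Finset.map_map]
    rfl
  have hconst : ∀ Y ∈ Finset.powersetCard j (Finset.univ : Finset O), g Y = g X := by
    intro Y hY
    rw [Finset.mem_powersetCard] at hY
    obtain ⟨σ, hσ⟩ := exists_perm_map (X := X) (Y := Y) (by rw [hX, hY.2])
    rw [← hσ, hinv]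
  have h1 : ∑ Y ∈ Finset.powersetCard j (Finset.univ : Finset O), g Y
      = ((Fintype.card O).choose j : ℚ) * g X := by
    rw [Finset.sum_congr rfl hconst]
    simp
  have h2 : ∑ Y ∈ Finset.powersetCard j (Finset.univ : Finset O), g Y
      = (Fintype.card (Equiv.Perm O) : ℚ) * ((Fintype.card O).choose j : ℚ) := by
    simp only [hg]
    rw [Finset.sum_comm]
    have : ∀ σ : Equiv.Perm O, ∑ Y ∈ Finset.powersetCard j (Finset.univ : Finset O),
        f (Y.map σ.toEmbedding) = ((Fintype.card O).choose j : ℚ) := by
      intro σ
      rw [← hf]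
      apply Finset.sum_bij (fun Y _ => Y.map σ.toEmbedding)
      · intro Y hY
        simp only [Finset.mem_powersetCard, Finset.subset_univ, true_and] at hY ⊢
        simpa using hY
      · intro Y _ Z _ h
        exact Finset.map_injective _ h
      · intro Z hZ
        refine ⟨Z.map σ.symm.toEmbedding, ?_, ?_⟩
        · simp only [Finset.mem_powersetCard, Finset.subset_univ, true_and] at hZ ⊢
          simpa using hZ
        · rw [Finset.map_map]
          ext x
          simp
      · intro Y _
        rfl
    rw [Finset.sum_congr rfl (fun σ _ => this σ)]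
    simp
  have hpos : (0 : ℚ) < ((Fintype.card O).choose j : ℚ) := by
    have : j ≤ Fintype.card O := by
      rw [← hX]
      exact Finset.card_le_univ X
    exact_mod_cast Nat.choose_pos this
  have h3 : ((Fintype.card O).choose j : ℚ) * g X
      = ((Fintype.card O).choose j : ℚ) * (Fintype.card (Equiv.Perm O) : ℚ) := by
    rw [← h1, h2]; ring
  exact mul_left_cancel₀ hpos.ne' h3

end average


section weights

/-- the weight of a distinguished set of size `j` -/
def pw (t d j : ℕ) : ℚ := if j = t then 8 else if j = d then 4 else 2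

/-- the size of the set whose `j`-subsets are distinguished -/
def uc (t d j : ℕ) : ℕ := if d < j then t else d

/-- the weight of a non-distinguished set of size `j` -/
def cw (N t d j : ℕ) : ℚ :=
  ((N.choose j : ℚ) - pw t d j * ((uc t d j).choose j : ℚ)) /
    ((N.choose j : ℚ) - ((uc t d j).choose j : ℚ))

theorem two_le_pw (t d j : ℕ) : 2 ≤ pw t d j := by
  unfold pw
  split_ifs <;> norm_num

theorem vand {a b j : ℕ} (hj : 1 ≤ j) : a.choose j + b.choose j ≤ (a + b).choose j := by
  rw [Nat.add_choose_eq]
  have hsub : ({(j, 0), (0, j)} : Finset (ℕ × ℕ)) ⊆ Finset.HasAntidiagonal.antidiagonal j := by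
    intro x hx
    simp only [Finset.mem_insert, Finset.mem_singleton] at hx
    rcases hx with rfl | rfl <;> simp
  refine le_trans ?_ (Finset.sum_le_sum_of_subset hsub)
  rw [Finset.sum_pair]
  · simp
  · intro h
    simp at h
    omega

theorem key_ineq {N t d j : ℕ} (ht : 4 ≤ t) (hdt : d < t) (htd : t ≤ 2 * d + 1)
    (hN : t + d ≤ N) (hj : 1 ≤ j) (hjt : j ≤ t) :
    pw t d j * ((uc t d j).choose j : ℚ) ≤ (N.choose j : ℚ) := by
  have hd2 : 2 ≤ d := by omega
  have h15 : 15 ≤ (t + 2).choose t := by
    have h1 : (t + 2).choose t = (t + 2).choose 2 := by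
      rw [← Nat.choose_symm_add]
    rw [h1]
    calc 15 = (4 + 2).choose 2 := by decide
      _ ≤ (t + 2).choose 2 := Nat.choose_le_choose 2 (by omega)
  by_cases h1 : j = t
  · subst h1
    have hu : uc j d j = j := by simp [uc, hdt]
    have hp : pw j d j = 8 := by simp [pw]
    rw [hu, hp]
    simp only [Nat.choose_self, Nat.cast_one, mul_one]
    have : 15 ≤ N.choose j := le_trans h15 (Nat.choose_le_choose j (by omega))
    have h8 : 8 ≤ N.choose j := by omega
    exact_mod_cast h8
  · by_cases h2 : j = d
    · subst h2
      have hu : uc t j j = j := by simp [uc]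
      have hp : pw t j j = 4 := by simp [pw, h1]
      rw [hu, hp]
      simp only [Nat.choose_self, Nat.cast_one, mul_one]
      have h3 : (t + 2).choose t ≤ (t + j).choose t := Nat.choose_le_choose t (by omega)
      have h4 : (t + j).choose t = (t + j).choose j := by
        rw [Nat.choose_symm_add]
      have h5 : (t + j).choose j ≤ N.choose j := Nat.choose_le_choose j hN
      have : 4 ≤ N.choose j := by omega
      exact_mod_cast this
    · have hp : pw t d j = 2 := by simp [pw, h1, h2]
      rw [hp]
      by_cases h3 : d < j
      · have hu : uc t d j = t := by simp [uc, h3]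
        rw [hu]
        have h4 : (t + 1).choose j ≤ N.choose j := Nat.choose_le_choose j (by omega)
        obtain ⟨i, rfl⟩ : ∃ i, j = i + 1 := ⟨j - 1, by omega⟩
        have h5 : (t + 1).choose (i + 1) = t.choose i + t.choose (i + 1) := Nat.choose_succ_succ t i
        have h6 : t.choose (i + 1) * (i + 1) = t.choose i * (t - i) := Nat.choose_succ_right_eq t i
        have h7 : t - i ≤ i + 1 := by omega
        have h8 : t.choose (i + 1) ≤ t.choose i := by
          have : t.choose (i + 1) * (i + 1) ≤ t.choose i * (i + 1) := by
            rw [h6]; exact Nat.mul_le_mul_left _ h7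
          exact Nat.le_of_mul_le_mul_right this (Nat.succ_pos i)
        have h9 : 2 * t.choose (i + 1) ≤ N.choose (i + 1) := by omega
        exact_mod_cast h9
      · have hu : uc t d j = d := by simp [uc, h3]
        rw [hu]
        have h4 : t.choose j + d.choose j ≤ (t + d).choose j := vand hj
        have h5 : (t + d).choose j ≤ N.choose j := Nat.choose_le_choose j hN
        have h6 : d.choose j ≤ t.choose j := Nat.choose_le_choose j hdt.le
        have h9 : 2 * d.choose j ≤ N.choose j := by omega
        exact_mod_cast h9

theorem choose_lt {N t d j : ℕ} (ht : 4 ≤ t) (hdt : d < t) (htd : t ≤ 2 * d + 1)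
    (hN : t + d ≤ N) (hj : 1 ≤ j) (hjt : j ≤ t) :
    ((uc t d j).choose j : ℚ) < (N.choose j : ℚ) := by
  have h1 := key_ineq ht hdt htd hN hj hjt
  have h2 := two_le_pw t d j
  have h3 : j ≤ uc t d j := by unfold uc; split_ifs <;> omega
  have h4 : (0 : ℚ) < ((uc t d j).choose j : ℚ) := by exact_mod_cast Nat.choose_pos h3
  nlinarith

theorem cw_nonneg {N t d j : ℕ} (ht : 4 ≤ t) (hdt : d < t) (htd : t ≤ 2 * d + 1)
    (hN : t + d ≤ N) (hj : 1 ≤ j) (hjt : j ≤ t) : 0 ≤ cw N t d j := by
  unfold cw
  apply div_nonneg
  · linarith [key_ineq ht hdt htd hN hj hjt]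
  · linarith [choose_lt ht hdt htd hN hj hjt]

theorem cw_le_one {N t d j : ℕ} (ht : 4 ≤ t) (hdt : d < t) (htd : t ≤ 2 * d + 1)
    (hN : t + d ≤ N) (hj : 1 ≤ j) (hjt : j ≤ t) : cw N t d j ≤ 1 := by
  unfold cw
  have h := choose_lt ht hdt htd hN hj hjt
  rw [div_le_one (by linarith)]
  have h2 := two_le_pw t d j
  have h4 : (0 : ℚ) ≤ ((uc t d j).choose j : ℚ) := by positivity
  nlinarith

variable {O : Type*} [Fintype O] [DecidableEq O]

/-- the weight function on subsets of `O`, depending on two disjoint sets `T`, `P` of sizes
`t`, `d` -/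
def wf (T P : Finset O) (X : Finset O) : ℚ :=
  if X.card = 0 then 0 else
    if X ⊆ (if P.card < X.card then T else P) then pw T.card P.card X.card
    else cw (Fintype.card O) T.card P.card X.card

theorem wf_sum (T P : Finset O) {t d : ℕ} (hT : T.card = t) (hP : P.card = d)
    (ht : 4 ≤ t) (hdt : d < t) (htd : t ≤ 2 * d + 1)
    (hN : t + d ≤ Fintype.card O) (j : ℕ) (hj : 1 ≤ j) (hjt : j ≤ t) :
    ∑ X ∈ Finset.powersetCard j (Finset.univ : Finset O), wf T P X
      = ((Fintype.card O).choose j : ℚ) := by
  set U : Finset O := if d < j then T else P with hU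
  have hUc : U.card = uc t d j := by
    unfold uc
    rw [hU]
    split_ifs
    · exact hT
    · exact hP
  have h1 : ∀ X ∈ Finset.powersetCard j (Finset.univ : Finset O),
      wf T P X = if X ⊆ U then pw t d j else cw (Fintype.card O) t d j := by
    intro X hX
    rw [Finset.mem_powersetCard] at hX
    unfold wf
    rw [hX.2, hT, hP, if_neg (by omega)]
  rw [Finset.sum_congr rfl h1, Finset.sum_ite]
  have h2 : (Finset.powersetCard j (Finset.univ : Finset O)).filter (fun X => X ⊆ U)
      = Finset.powersetCard j U := by
    ext X
    simp only [Finset.mem_filter, Finset.mem_powersetCard, Finset.subset_univ, true_and]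
    tauto
  have h3 : ((Finset.powersetCard j (Finset.univ : Finset O)).filter (fun X => X ⊆ U)).card
      = (uc t d j).choose j := by
    rw [h2, Finset.card_powersetCard, hUc]
  have h4 : ((Finset.powersetCard j (Finset.univ : Finset O)).filter (fun X => X ⊆ U)).card
      + ((Finset.powersetCard j (Finset.univ : Finset O)).filter (fun X => ¬ X ⊆ U)).card
      = (Fintype.card O).choose j := by
    rw [Finset.card_filter_add_card_filter_not, Finset.card_powersetCard, Finset.card_univ]
  have h5 : (((Finset.powersetCard j (Finset.univ : Finset O)).filter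
      (fun X => ¬ X ⊆ U)).card : ℚ)
      = ((Fintype.card O).choose j : ℚ) - ((uc t d j).choose j : ℚ) := by
    rw [← h4, h3]
    push_cast
    ring
  rw [Finset.sum_const, Finset.sum_const, h3, nsmul_eq_mul, nsmul_eq_mul, h5]
  have h6 := choose_lt ht hdt htd hN hj hjt
  unfold cw
  rw [mul_div_cancel₀]
  · ring
  · linarith

theorem wf_valid (T P : Finset O) {t d : ℕ} (hT : T.card = t) (hP : P.card = d)
    (hTP : Disjoint T P)
    (ht : 4 ≤ t) (hdt : d < t) (htd : t ≤ 2 * d + 1)
    (hN : t + d ≤ Fintype.card O) (X : Finset O) (hX1 : 1 ≤ X.card) (hXt : X.card < t) :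
    ∃ Y : Finset O, Disjoint X Y ∧ Y.card ≤ t ∧ t ≤ X.card + Y.card ∧ 2 * wf T P X ≤ wf T P Y := by
  have hd2 : 2 ≤ d := by omega
  have hwT : wf T P T = 8 := by
    unfold wf
    rw [hT, hP, if_neg (by omega), if_pos hdt, if_pos (Finset.Subset.refl _)]
    simp [pw]
  have hwP : wf T P P = 4 := by
    unfold wf
    rw [hT, hP, if_neg (by omega), if_neg (lt_irrefl _), if_pos (Finset.Subset.refl _)]
    simp [pw, hdt.ne]
  by_cases hsub : X ⊆ (if d < X.card then T else P)
  · -- `X` is distinguished
    by_cases hd : d < X.card
    · rw [if_pos hd] at hsub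
      refine ⟨P, Finset.disjoint_of_subset_left hsub hTP, by omega, by omega, ?_⟩
      rw [hwP]
      unfold wf
      rw [hT, hP, if_neg (by omega), if_pos hd, if_pos hsub]
      unfold pw
      rw [if_neg (by omega), if_neg (by omega)]
      norm_num
    · rw [if_neg hd] at hsub
      refine ⟨T, Finset.disjoint_of_subset_left hsub hTP.symm, by omega, by omega, ?_⟩
      rw [hwT]
      unfold wf
      rw [hT, hP, if_neg (by omega), if_neg hd, if_pos hsub]
      unfold pw
      rw [if_neg (by omega)]
      split_ifs <;> norm_num
  · have hwX : wf T P X ≤ 1 := by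
      unfold wf
      rw [hT, hP, if_neg (by omega), if_neg hsub]
      exact cw_le_one ht hdt htd hN hX1 hXt.le
    have hcT : (X ∩ T).card + (T \ X).card = t := by
      rw [Finset.inter_comm, Finset.card_inter_add_card_sdiff, hT]
    have hcP : (X ∩ P).card + (P \ X).card = d := by
      rw [Finset.inter_comm, Finset.card_inter_add_card_sdiff, hP]
    have hcX : (X ∩ T).card + (X ∩ P).card ≤ X.card := by
      rw [← Finset.card_union_of_disjoint]
      · exact Finset.card_le_card (by
          intro x hx
          simp only [Finset.mem_union, Finset.mem_inter] at hx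
          tauto)
      · exact Finset.disjoint_of_subset_left Finset.inter_subset_right
          (Finset.disjoint_of_subset_right Finset.inter_subset_right hTP)
    by_cases hc : d < (T \ X).card
    · refine ⟨T \ X, Finset.disjoint_sdiff, by omega, by omega, ?_⟩
      have : 2 ≤ wf T P (T \ X) := by
        unfold wf
        rw [hP, if_neg (by omega), if_pos hc, if_pos Finset.sdiff_subset]
        exact two_le_pw _ _ _
      linarith
    · refine ⟨P \ X, Finset.disjoint_sdiff, by omega, by omega, ?_⟩
      have : 2 ≤ wf T P (P \ X) := by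
        unfold wf
        rw [hP, if_neg (by omega), if_neg (show ¬ d < (P \ X).card by omega),
          if_pos Finset.sdiff_subset]
        exact two_le_pw _ _ _
      linarith

theorem wf_nonneg (T P : Finset O) {t d : ℕ} (hT : T.card = t) (hP : P.card = d)
    (ht : 4 ≤ t) (hdt : d < t) (htd : t ≤ 2 * d + 1)
    (hN : t + d ≤ Fintype.card O) (X : Finset O) (hXt : X.card ≤ t) : 0 ≤ wf T P X := by
  unfold wf
  by_cases h0 : X.card = 0
  · rw [if_pos h0]
  · rw [if_neg h0, hT, hP]
    have h1 : 1 ≤ X.card := by omega
    have h2 := two_le_pw t d X.card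
    have h3 := cw_nonneg ht hdt htd hN h1 hXt
    split_ifs
    · linarith
    · linarith
    · linarith
    · linarith

end weights

section kneserpart

variable {m t : ℕ}

/-- the part of a vertex `A` lying outside the root `r` -/
def outp (r A : {s : Finset (Fin m) // s.card = t}) : Finset {x : Fin m // x ∉ r.1} :=
  A.1.subtype (fun x => x ∉ r.1)

theorem card_outp (r A : {s : Finset (Fin m) // s.card = t}) :
    (outp r A).card = (A.1 \ r.1).card := by
  unfold outp
  rw [Finset.card_subtype, Finset.filter_notMem_eq_sdiff]

theorem card_outp_le (r A : {s : Finset (Fin m) // s.card = t}) :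
    (outp r A).card ≤ t := by
  rw [card_outp]
  have := Finset.card_le_card (Finset.sdiff_subset : A.1 \ r.1 ⊆ A.1)
  rw [A.2] at this
  exact this

theorem outp_self (r : {s : Finset (Fin m) // s.card = t}) : (outp r r).card = 0 := by
  rw [card_outp]; simp

theorem outp_pos {r A : {s : Finset (Fin m) // s.card = t}} (h : A ≠ r) :
    1 ≤ (outp r A).card := by
  rw [card_outp]
  by_contra hc
  have h0 : (A.1 \ r.1).card = 0 := by omega
  rw [Finset.card_eq_zero, Finset.sdiff_eq_empty_iff_subset] at h0
  apply h
  apply Subtype.ext
  exact Finset.eq_of_subset_of_card_le h0 (by rw [A.2, r.2])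

theorem adj_root (ht : 1 ≤ t) {r A : {s : Finset (Fin m) // s.card = t}}
    (h : (outp r A).card = t) : (kneser m t).Adj A r := by
  rw [card_outp] at h
  have h1 : (A.1 ∩ r.1).card = 0 := by
    have := Finset.card_inter_add_card_sdiff A.1 r.1
    rw [A.2] at this
    omega
  rw [Finset.card_eq_zero] at h1
  refine ⟨?_, Finset.disjoint_iff_inter_eq_empty.2 h1⟩
  rintro rfl
  simp at h
  omega

theorem exists_adj (ht : 1 ≤ t) (r A : {s : Finset (Fin m) // s.card = t})
    (Y : Finset {x : Fin m // x ∉ r.1}) (hd : Disjoint (outp r A) Y) (hY : Y.card ≤ t)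
    (hsum : t ≤ (outp r A).card + Y.card) :
    ∃ B : {s : Finset (Fin m) // s.card = t}, (kneser m t).Adj A B ∧ outp r B = Y := by
  classical
  have h1 : (r.1 \ A.1).card = (outp r A).card := by
    rw [card_outp]
    have h2 := Finset.card_inter_add_card_sdiff A.1 r.1
    have h3 := Finset.card_inter_add_card_sdiff r.1 A.1
    rw [A.2] at h2
    rw [r.2, Finset.inter_comm] at h3
    omega
  obtain ⟨S, hS, hSc⟩ := Finset.exists_subset_card_eq (s := r.1 \ A.1) (n := t - Y.card)
    (by omega)
  set Y' : Finset (Fin m) := Y.map (Function.Embedding.subtype _) with hY'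
  have hY'r : ∀ x ∈ Y', x ∉ r.1 := by
    intro x hx
    simp only [hY', Finset.mem_map, Function.Embedding.subtype_apply] at hx
    obtain ⟨y, _, rfl⟩ := hx
    exact y.2
  have hdisj : Disjoint Y' S := by
    rw [Finset.disjoint_left]
    intro x hx hxS
    have := hS hxS
    rw [Finset.mem_sdiff] at this
    exact hY'r x hx this.1
  have hcard : (Y' ∪ S).card = t := by
    rw [Finset.card_union_of_disjoint hdisj, hY', Finset.card_map, hSc]
    omega
  have hAY : Disjoint A.1 (Y' ∪ S) := by
    rw [Finset.disjoint_left]
    intro x hxA hx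
    rw [Finset.mem_union] at hx
    rcases hx with hx | hx
    · have hxr := hY'r x hx
      simp only [hY', Finset.mem_map, Function.Embedding.subtype_apply] at hx
      obtain ⟨y, hy, rfl⟩ := hx
      have hyA : y ∈ outp r A := by
        unfold outp
        rw [Finset.mem_subtype]
        exact hxA
      exact (Finset.disjoint_left.1 hd hyA) hy
    · have := hS hx
      rw [Finset.mem_sdiff] at this
      exact this.2 hxA
  refine ⟨⟨Y' ∪ S, hcard⟩, ⟨?_, hAY⟩, ?_⟩
  · rintro h
    have h' : A.1 = Y' ∪ S := by rw [h]
    rw [← h', Finset.disjoint_self_iff_empty] at hAY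
    have := A.2
    rw [hAY] at this
    simp at this
    omega
  · ext y
    unfold outp
    rw [Finset.mem_subtype]
    simp only [Finset.mem_union]
    constructor
    · rintro (h | h)
      · simp only [hY', Finset.mem_map, Function.Embedding.subtype_apply] at h
        obtain ⟨z, hz, hzy⟩ := h
        have : z = y := Subtype.ext hzy
        rwa [← this]
      · exfalso
        have := hS h
        rw [Finset.mem_sdiff] at this
        exact y.2 this.1
    · intro h
      left
      simp only [hY', Finset.mem_map, Function.Embedding.subtype_apply]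
      exact ⟨y, h, rfl⟩

theorem unsolvable_lt (ht : 4 ≤ t) (hm : 5 * t ≤ 2 * m + 1)
    (r : {s : Finset (Fin m) // s.card = t}) (C : {s : Finset (Fin m) // s.card = t} → ℕ)
    (hun : ¬ Reaches (kneser m t) r C) :
    ∑ v, C v < Fintype.card {s : Finset (Fin m) // s.card = t} := by
  classical
  have hcO' : Fintype.card {x : Fin m // x ∉ r.1} = m - t := by
    rw [Fintype.card_subtype_compl, Fintype.card_fin]
    simp [r.2]
  set O := {x : Fin m // x ∉ r.1} with hO
  have hcO : Fintype.card O = m - t := hcO'
  set d := min (m - 2 * t) (t - 1) with hd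
  have hdt : d < t := by omega
  have htd : t ≤ 2 * d + 1 := by omega
  have hN : t + d ≤ Fintype.card O := by omega
  obtain ⟨T, -, hT⟩ := Finset.exists_subset_card_eq (s := (Finset.univ : Finset O)) (n := t)
    (by rw [Finset.card_univ]; omega)
  obtain ⟨P, hPs, hP⟩ := Finset.exists_subset_card_eq (s := (Finset.univ : Finset O) \ T) (n := d)
    (by
      rw [Finset.card_sdiff_of_subset (Finset.subset_univ _), Finset.card_univ, hT]
      omega)
  have hTP : Disjoint T P := by
    rw [Finset.disjoint_left]
    intro x hx hx'
    have := hPs hx'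
    rw [Finset.mem_sdiff] at this
    exact this.2 hx
  have hCr : C r = 0 := by
    by_contra h
    exact hun ⟨C, Relation.ReflTransGen.refl, by omega⟩
  -- the weight functions
  let w : Equiv.Perm O → {s : Finset (Fin m) // s.card = t} → ℚ :=
    fun σ A => wf T P ((outp r A).map σ.toEmbedding)
  have hineq : ∀ σ : Equiv.Perm O, ∑ A, w σ A * (C A : ℚ) ≤ ∑ A, w σ A := by
    intro σ
    apply weight_lemma (G := kneser m t) r (w σ) _ _ _ C rfl hun
    · intro A
      apply wf_nonneg T P hT hP ht hdt htd hN
      rw [Finset.card_map]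
      exact card_outp_le r A
    · intro A hA
      by_cases hAr : A = r
      · exfalso
        subst hAr
        simp only [w] at hA
        unfold wf at hA
        rw [Finset.card_map, outp_self, if_pos rfl] at hA
        exact lt_irrefl _ hA
      · by_cases hAt : (outp r A).card = t
        · left
          exact adj_root (by omega) hAt
        · right
          have hlt : (outp r A).card < t := lt_of_le_of_ne (card_outp_le r A) hAt
          obtain ⟨Y, hY1, hY2, hY3, hY4⟩ := wf_valid T P hT hP hTP ht hdt htd hN
            ((outp r A).map σ.toEmbedding) (by rw [Finset.card_map]; exact outp_pos hAr)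
            (by rw [Finset.card_map]; exact hlt)
          have hYσ : (Y.map σ.symm.toEmbedding).map σ.toEmbedding = Y := by
            rw [Finset.map_map]
            ext x
            simp
          obtain ⟨B, hB1, hB2⟩ := exists_adj (by omega) r A (Y.map σ.symm.toEmbedding)
            (by
              rw [← Finset.disjoint_map σ.toEmbedding, hYσ]
              exact hY1)
            (by rw [Finset.card_map]; exact hY2)
            (by
              rw [Finset.card_map]
              rw [Finset.card_map] at hY3
              exact hY3)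
          refine ⟨B, hB1, ?_⟩
          simp only [w]
          rw [hB2, hYσ]
          exact hY4
  -- average over all permutations
  have hsumw : ∀ A, ∑ σ : Equiv.Perm O, w σ A
      = if A = r then 0 else (Fintype.card (Equiv.Perm O) : ℚ) := by
    intro A
    by_cases hAr : A = r
    · rw [if_pos hAr]
      subst hAr
      apply Finset.sum_eq_zero
      intro σ _
      simp only [w]
      unfold wf
      rw [Finset.card_map, outp_self, if_pos rfl]
    · rw [if_neg hAr]
      exact average (wf T P) (outp r A).card
        (wf_sum T P hT hP ht hdt htd hN _ (outp_pos hAr) (card_outp_le r A)) (outp r A) rfl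
  have htot : ∑ σ : Equiv.Perm O, ∑ A, w σ A * (C A : ℚ) ≤ ∑ σ : Equiv.Perm O, ∑ A, w σ A :=
    Finset.sum_le_sum (fun σ _ => hineq σ)
  rw [Finset.sum_comm, Finset.sum_comm (f := fun σ A => w σ A)] at htot
  have hL : ∑ A, ∑ σ : Equiv.Perm O, w σ A * (C A : ℚ)
      = (Fintype.card (Equiv.Perm O) : ℚ) * ∑ A, (C A : ℚ) := by
    rw [Finset.mul_sum]
    apply Finset.sum_congr rfl
    intro A _
    rw [← Finset.sum_mul, hsumw A]
    by_cases hAr : A = r
    · rw [hAr, hCr]; simp
    · rw [if_neg hAr]
  have hR : ∑ A, ∑ σ : Equiv.Perm O, w σ A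
      = (Fintype.card (Equiv.Perm O) : ℚ) *
        ((Fintype.card {s : Finset (Fin m) // s.card = t} : ℚ) - 1) := by
    rw [Finset.sum_congr rfl (fun A _ => hsumw A)]
    have : ∀ A : {s : Finset (Fin m) // s.card = t},
        (if A = r then (0 : ℚ) else (Fintype.card (Equiv.Perm O) : ℚ))
        = (Fintype.card (Equiv.Perm O) : ℚ) -
          (if A = r then (Fintype.card (Equiv.Perm O) : ℚ) else 0) := by
      intro A
      split_ifs <;> simp
    rw [Finset.sum_congr rfl (fun A _ => this A), Finset.sum_sub_distrib]
    simp only [Finset.sum_const, Finset.card_univ, nsmul_eq_mul, Finset.sum_ite_eq',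
      Finset.mem_univ, if_true]
    ring
  rw [hL, hR] at htot
  have hpos : (0 : ℚ) < (Fintype.card (Equiv.Perm O) : ℚ) := by
    exact_mod_cast Fintype.card_pos
  have hfin : ∑ A, (C A : ℚ) ≤ (Fintype.card {s : Finset (Fin m) // s.card = t} : ℚ) - 1 :=
    le_of_mul_le_mul_left htot hpos
  have : ((∑ A, C A : ℕ) : ℚ) + 1 ≤ (Fintype.card {s : Finset (Fin m) // s.card = t} : ℚ) := by
    push_cast
    linarith
  have h' : (∑ A, C A) + 1 ≤ Fintype.card {s : Finset (Fin m) // s.card = t} := by
    exact_mod_cast this
  omega

end kneserpart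

/-- Every Kneser graph `K(m,t)` with `t ≥ 4` and `m ≥ (5t-1)/2` is of Class 0, that is,
its pebbling number equals its number of vertices. -/
theorem result (t m : ℕ) (ht : 4 ≤ t) (hm : 5 * t ≤ 2 * m + 1) : IsClassZero (kneser m t) :=
  classZero_of_forall (fun r C hun => unsolvable_lt ht hm r C hun)

end Pool.Agent.Results.MP_9946dc_co.KneserClassZero
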